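import Pool.Agent.W917.InjTree.Reg

/-!
# MP_7e5099_lc, Q2: refuted for every weakly compact cardinal

For every weakly compact (in fact every regular uncountable) `κ` there are a tree `T` that is not
`κ`-special and a colouring of its comparable pairs with countably many colours with no homogeneous
chain of order type `κ + 2`; in particular there is none of type `κ ^ n` for `n ≥ 2`.
-/

namespace Pool.Agent.Results.MP_7e5099_lc.CountablyManyColours

open Cardinal Ordinal Set

universe u

/-- A tree: the predecessors of every element are well-ordered. -/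
def IsTree (T : Type u) [PartialOrder T] : Prop :=
  ∀ t : T, IsWellOrder (Set.Iio t) (· < ·)

/-- `T` is `κ`-special: some map from `T` to a set of size `κ` separates comparable elements. -/
def Special (T : Type u) [PartialOrder T] (κ : Cardinal.{u}) : Prop :=
  ∃ f : T → κ.out, ∀ x y : T, x < y → f x ≠ f y

/-- `T → (α)²_ω`: every colouring of the pairs `x < y` with colours in `ℕ` is constant on some chain
of order type `α` (the chain is given as a strictly increasing map on the ordinals below `α`). -/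
def ArrowNat (T : Type u) [PartialOrder T] (α : Ordinal.{u}) : Prop :=
  ∀ c : T → T → ℕ, ∃ g : Set.Iio α → T, StrictMono g ∧
    ∃ i : ℕ, ∀ a b : Set.Iio α, a < b → c (g a) (g b) = i

/-- `κ` is weakly compact: uncountable and `κ → (κ)²_2`. -/
def WeaklyCompact (κ : Cardinal.{u}) : Prop :=
  ℵ₀ < κ ∧ ∀ X : Type u, #X = κ → ∀ c : X → X → Fin 2, (∀ x y, c x y = c y x) →
    ∃ H : Set X, #H = κ ∧ ∃ i : Fin 2, ∀ x ∈ H, ∀ y ∈ H, x ≠ y → c x y = i

theorem WeaklyCompact.isRegular {κ : Cardinal.{u}} (h : WeaklyCompact κ) : κ.IsRegular := by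
  classical
  obtain ⟨h0, h⟩ := h
  refine ⟨h0.le, ?_⟩
  by_contra hcon
  rw [not_le, ← Ordinal.cof_toType] at hcon
  obtain ⟨S, hS, hSc⟩ := Order.exists_cof_eq κ.ord.ToType
  have hS' : ∀ x, ∃ y : S, x ≤ y.1 := fun x => by
    obtain ⟨y, hy, hxy⟩ := hS x
    exact ⟨⟨y, hy⟩, hxy⟩
  choose f hf using hS'
  obtain ⟨H, hH, i, hi⟩ := h κ.ord.ToType (mk_ord_toType κ)
    (fun x y => if f x = f y then 0 else 1) (fun x y => by simp only [eq_comm])
  by_cases hi0 : i = 0
  · subst hi0
    have hne : H.Nonempty := by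
      rw [Set.nonempty_iff_ne_empty]
      rintro rfl
      have h1 : #(∅ : Set κ.ord.ToType) = 0 := by simp
      rw [h1] at hH
      exact absurd hH (aleph0_pos.trans h0).ne
    obtain ⟨x0, hx0⟩ := hne
    have hsub : H ⊆ Set.Iic (f x0).1 := by
      intro x hx
      by_cases hxx : x = x0
      · rw [hxx]; exact hf x0
      · have h1 := hi x hx x0 hx0 hxx
        have h2 : f x = f x0 := by
          by_contra hne
          simp [if_neg hne] at h1
        have h3 := hf x
        rw [h2] at h3
        exact h3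
    have h1 := mk_le_mk_of_subset hsub
    rw [hH] at h1
    exact absurd (W917.InjTree.mk_Iic_lt' h0.le (f x0).1) (not_lt.2 h1)
  · have hinj : Function.Injective (fun x : H => f x.1) := by
      intro x y hxy
      by_contra hne
      have h1 := hi x.1 x.2 y.1 y.2 (fun h => hne (Subtype.ext h))
      simp only at hxy
      simp only [if_pos hxy] at h1
      exact hi0 h1.symm
    have h1 := mk_le_of_injective hinj
    rw [hH, hSc] at h1
    exact absurd hcon (not_lt.2 h1)

/-- For every regular uncountable `κ`. -/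
theorem regular_case (κ : Cardinal.{u}) (hκ : κ.IsRegular) (h0 : ℵ₀ < κ) :
    ∃ (T : Type u) (_ : PartialOrder T), IsTree T ∧ ¬ Special T κ ∧
      ∀ α : Ordinal.{u}, κ.ord + 2 ≤ α → ¬ ArrowNat T α := by
  refine ⟨W917.InjTree.Tr κ, inferInstance, fun t => W917.InjTree.Node.tree t, ?_, ?_⟩
  · rintro ⟨f, hf⟩
    obtain ⟨s, t, hst, hft⟩ := W917.InjTree.tr_not_special hκ h0 (by rw [mk_out]) f
    exact hf s t hst hft
  · intro α hα h
    obtain ⟨g, hg, i, hi⟩ := h W917.InjTree.col
    exact W917.InjTree.tr_no_chain hκ hα g hg i hi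

theorem add_two_le_opow {κ : Cardinal.{u}} (h0 : ℵ₀ < κ) {n : ℕ} (hn : 2 ≤ n) :
    κ.ord + 2 ≤ κ.ord ^ (n : Ordinal.{u}) := by
  have hω : ω ≤ κ.ord := by rw [← ord_aleph0]; exact ord_le_ord.2 h0.le
  have h2 : (2 : Ordinal.{u}) ≤ κ.ord := le_trans (by exact_mod_cast (natCast_lt_omega0 2).le) hω
  have hpos : (0 : Ordinal.{u}) < κ.ord := omega0_pos.trans_le hω
  calc κ.ord + 2 ≤ κ.ord + κ.ord := by gcongr
    _ = κ.ord * 2 := by rw [← one_add_one_eq_two, mul_add, mul_one]
    _ ≤ κ.ord * κ.ord := by gcongr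
    _ = κ.ord ^ (2 : Ordinal.{u}) := by
        rw [← one_add_one_eq_two, opow_add, opow_one]
    _ ≤ κ.ord ^ (n : Ordinal.{u}) := by
        apply opow_le_opow_right hpos
        exact_mod_cast hn

/-- **Q2 is false for every weakly compact cardinal.**

(1) For every weakly compact `κ` and every `n ≥ 2` there is a tree that is not `κ`-special and does
not satisfy `T → (κ ^ n)²_ω` (ordinal power).

(2) The same tree works for all goals `≥ κ + 2` and `κ` need only be regular and uncountable. -/
theorem result :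
    (∀ κ : Cardinal.{u}, WeaklyCompact κ → ∀ n : ℕ, 2 ≤ n →
      ∃ (T : Type u) (_ : PartialOrder T), IsTree T ∧ ¬ Special T κ ∧
        ¬ ArrowNat T (κ.ord ^ (n : Ordinal.{u}))) ∧
    (∀ κ : Cardinal.{u}, κ.IsRegular → ℵ₀ < κ →
      ∃ (T : Type u) (_ : PartialOrder T), IsTree T ∧ ¬ Special T κ ∧
        ∀ α : Ordinal.{u}, κ.ord + 2 ≤ α → ¬ ArrowNat T α) := by
  refine ⟨?_, regular_case⟩
  intro κ hκ n hn
  obtain ⟨T, i, h1, h2, h3⟩ := regular_case κ hκ.isRegular hκ.1
  exact ⟨T, i, h1, h2, h3 _ (add_two_le_opow hκ.1 hn)⟩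

end Pool.Agent.Results.MP_7e5099_lc.CountablyManyColours
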